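import Pool.Agent.P8H70.TR.Stm

/-!
Package CNT of project TR: counting the quadruples of pairs `(j, S)` with equal sums.
-/

set_option autoImplicit false

open Finset

namespace Pool.Agent.P8H16.TR

lemma brA {a b c e : ℕ} (ha : 1 ≤ a) (hb : 1 ≤ b) (hc : 1 ≤ c) (he : 1 ≤ e) (h : a + b = c + e)
    (hac : a ≠ c) (hae : a ≠ e) (p q r s : Prop) [Decidable p] [Decidable q] [Decidable r]
    [Decidable s] (hi : (if p then a else 0) + (if q then b else 0) =
      (if r then c else 0) + (if s then e else 0)) : (q ↔ p) ∧ (r ↔ p) ∧ (s ↔ p) := by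
  by_cases hp : p <;> by_cases hq : q <;> by_cases hr : r <;> by_cases hs : s <;>
    simp only [hp, hq, hr, hs, if_true, if_false] at hi ⊢ <;>
    first
    | (simp; done)
    | (exfalso; omega)

lemma brB {a b : ℕ} (ha : 1 ≤ a) (hb : 1 ≤ b) (hab : a ≠ b) (p q r s : Prop) [Decidable p]
    [Decidable q] [Decidable r] [Decidable s] (hi : (if p then a else 0) + (if q then b else 0) =
      (if r then a else 0) + (if s then b else 0)) : (r ↔ p) ∧ (s ↔ q) := by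
  by_cases hp : p <;> by_cases hq : q <;> by_cases hr : r <;> by_cases hs : s <;>
    simp only [hp, hq, hr, hs, if_true, if_false] at hi ⊢ <;>
    first
    | (simp; done)
    | (exfalso; omega)

lemma brD {a : ℕ} (ha : 1 ≤ a) (p q r s s' : Prop) [Decidable p] [Decidable q] [Decidable r]
    [Decidable s] [Decidable s'] (hi : (if p then a else 0) + (if q then a else 0) =
      (if r then a else 0) + (if s then a else 0))
    (hi' : (if p then a else 0) + (if q then a else 0) =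
      (if r then a else 0) + (if s' then a else 0)) : s ↔ s' := by
  by_cases hs : s <;> by_cases hs' : s' <;>
    simp only [hs, hs', if_true, if_false] at hi hi' ⊢ <;>
    first
    | (simp; done)
    | (exfalso; omega)

theorem cnt : Pool.Agent.P8H70.TR.S_CNT := by
  classical
  intro n k d J hJ
  set P := powersetCard d (univ : Finset (Fin k)) with hP
  have hPc : P.card = k.choose d := by rw [hP, card_powersetCard, card_univ, Fintype.card_fin]
  have hJc : J.card ≤ n := by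
    have h1 : J ⊆ Icc 1 n := fun j hj => mem_Icc.2 (hJ j hj)
    have h2 := card_le_card h1
    rwa [Nat.card_Icc, Nat.add_sub_cancel] at h2
  set T := (((J ×ˢ P) ×ˢ (J ×ˢ P)) ×ˢ ((J ×ˢ P) ×ˢ (J ×ˢ P))).filter
      (fun x => x.1.1.1 + x.1.2.1 = x.2.1.1 + x.2.2.1 ∧ ∀ i : Fin k,
        (if i ∈ x.1.1.2 then x.1.1.1 else 0) + (if i ∈ x.1.2.2 then x.1.2.1 else 0) =
        (if i ∈ x.2.1.2 then x.2.1.1 else 0) + (if i ∈ x.2.2.2 then x.2.2.1 else 0)) with hT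
  have hmem : ∀ x ∈ T, ((x.1.1.1 ∈ J ∧ x.1.1.2 ∈ P) ∧ (x.1.2.1 ∈ J ∧ x.1.2.2 ∈ P)) ∧
      ((x.2.1.1 ∈ J ∧ x.2.1.2 ∈ P) ∧ (x.2.2.1 ∈ J ∧ x.2.2.2 ∈ P)) := by
    intro x hx
    rw [hT, mem_filter, mem_product, mem_product, mem_product, mem_product, mem_product,
      mem_product, mem_product] at hx
    exact hx.1
  have hsum : ∀ x ∈ T, x.1.1.1 + x.1.2.1 = x.2.1.1 + x.2.2.1 := by
    intro x hx
    rw [hT, mem_filter] at hx
    exact hx.2.1
  have hbr : ∀ x ∈ T, ∀ i : Fin k,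
      (if i ∈ x.1.1.2 then x.1.1.1 else 0) + (if i ∈ x.1.2.2 then x.1.2.1 else 0) =
      (if i ∈ x.2.1.2 then x.2.1.1 else 0) + (if i ∈ x.2.2.2 then x.2.2.1 else 0) := by
    intro x hx
    rw [hT, mem_filter] at hx
    exact hx.2.2
  -- the four parts
  have hA : (T.filter fun x => x.1.1.1 ≠ x.2.1.1 ∧ x.1.1.1 ≠ x.2.2.1).card ≤
      ((J ×ˢ J) ×ˢ (J ×ˢ P)).card := by
    have key : ∀ x ∈ T.filter (fun x => x.1.1.1 ≠ x.2.1.1 ∧ x.1.1.1 ≠ x.2.2.1),
        x.1.2.2 = x.1.1.2 ∧ x.2.1.2 = x.1.1.2 ∧ x.2.2.2 = x.1.1.2 := by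
      intro x hx
      obtain ⟨hx, h1, h2⟩ := mem_filter.1 hx
      obtain ⟨⟨⟨m1, -⟩, ⟨m2, -⟩⟩, ⟨⟨m3, -⟩, ⟨m4, -⟩⟩⟩ := hmem x hx
      have hb := fun i => brA (hJ _ m1).1 (hJ _ m2).1 (hJ _ m3).1 (hJ _ m4).1 (hsum x hx) h1 h2 _ _ _
        _ (hbr x hx i)
      exact ⟨Finset.ext fun i => (hb i).1, Finset.ext fun i => (hb i).2.1,
        Finset.ext fun i => (hb i).2.2⟩
    refine card_le_card_of_injOn (fun x => ((x.1.1.1, x.1.2.1), (x.2.1.1, x.1.1.2))) ?_ ?_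
    · intro x hx
      obtain ⟨⟨⟨m1, p1⟩, ⟨m2, -⟩⟩, ⟨⟨m3, -⟩, -⟩⟩ := hmem x (mem_filter.1 hx).1
      simp only [coe_product, Set.mem_prod, mem_coe]
      exact ⟨⟨m1, m2⟩, m3, p1⟩
    · intro x hx y hy hxy
      have hx' := hsum x (mem_filter.1 hx).1
      have hy' := hsum y (mem_filter.1 hy).1
      obtain ⟨kx1, kx2, kx3⟩ := key x hx
      obtain ⟨ky1, ky2, ky3⟩ := key y hy
      simp only [Prod.mk.injEq] at hxy
      obtain ⟨⟨e1, e2⟩, e3, e4⟩ := hxy
      refine Prod.ext (Prod.ext (Prod.ext e1 e4) (Prod.ext e2 ?_))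
        (Prod.ext (Prod.ext e3 ?_) (Prod.ext ?_ ?_))
      · rw [kx1, ky1, e4]
      · rw [kx2, ky2, e4]
      · omega
      · rw [kx3, ky3, e4]
  have hB : (T.filter fun x => x.1.1.1 = x.2.1.1 ∧ x.1.1.1 ≠ x.1.2.1).card ≤
      ((J ×ˢ P) ×ˢ (J ×ˢ P)).card := by
    have key : ∀ x ∈ T.filter (fun x => x.1.1.1 = x.2.1.1 ∧ x.1.1.1 ≠ x.1.2.1),
        x.2.1 = x.1.1 ∧ x.2.2 = x.1.2 := by
      intro x hx
      obtain ⟨hx, h1, h2⟩ := mem_filter.1 hx
      obtain ⟨⟨⟨m1, -⟩, ⟨m2, -⟩⟩, -⟩ := hmem x hx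
      have h3 := hsum x hx
      have h4 : x.2.2.1 = x.1.2.1 := by omega
      have hb := fun i => brB (hJ _ m1).1 (hJ _ m2).1 h2 (i ∈ x.1.1.2) (i ∈ x.1.2.2) (i ∈ x.2.1.2)
        (i ∈ x.2.2.2) (by
          have h5 := hbr x hx i
          rw [← h1, h4] at h5
          exact h5)
      exact ⟨Prod.ext h1.symm (Finset.ext fun i => (hb i).1),
        Prod.ext h4 (Finset.ext fun i => (hb i).2)⟩
    refine card_le_card_of_injOn (fun x => x.1) ?_ ?_
    · intro x hx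
      obtain ⟨⟨⟨m1, p1⟩, ⟨m2, p2⟩⟩, -⟩ := hmem x (mem_filter.1 hx).1
      simp only [coe_product, Set.mem_prod, mem_coe]
      exact ⟨⟨m1, p1⟩, m2, p2⟩
    · intro x hx y hy hxy
      replace hxy : x.1 = y.1 := hxy
      obtain ⟨kx1, kx2⟩ := key x hx
      obtain ⟨ky1, ky2⟩ := key y hy
      refine Prod.ext hxy (Prod.ext ?_ ?_)
      · rw [kx1, ky1, hxy]
      · rw [kx2, ky2, hxy]
  have hC : (T.filter fun x => x.1.1.1 = x.2.2.1 ∧ x.1.1.1 ≠ x.1.2.1).card ≤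
      ((J ×ˢ P) ×ˢ (J ×ˢ P)).card := by
    have key : ∀ x ∈ T.filter (fun x => x.1.1.1 = x.2.2.1 ∧ x.1.1.1 ≠ x.1.2.1),
        x.2.2 = x.1.1 ∧ x.2.1 = x.1.2 := by
      intro x hx
      obtain ⟨hx, h1, h2⟩ := mem_filter.1 hx
      obtain ⟨⟨⟨m1, -⟩, ⟨m2, -⟩⟩, -⟩ := hmem x hx
      have h3 := hsum x hx
      have h4 : x.2.1.1 = x.1.2.1 := by omega
      have hb := fun i => brB (hJ _ m1).1 (hJ _ m2).1 h2 (i ∈ x.1.1.2) (i ∈ x.1.2.2) (i ∈ x.2.2.2)
        (i ∈ x.2.1.2) (by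
          have h5 := hbr x hx i
          rw [← h1, h4] at h5
          rw [h5, add_comm])
      exact ⟨Prod.ext h1.symm (Finset.ext fun i => (hb i).1),
        Prod.ext h4 (Finset.ext fun i => (hb i).2)⟩
    refine card_le_card_of_injOn (fun x => x.1) ?_ ?_
    · intro x hx
      obtain ⟨⟨⟨m1, p1⟩, ⟨m2, p2⟩⟩, -⟩ := hmem x (mem_filter.1 hx).1
      simp only [coe_product, Set.mem_prod, mem_coe]
      exact ⟨⟨m1, p1⟩, m2, p2⟩
    · intro x hx y hy hxy
      replace hxy : x.1 = y.1 := hxy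
      obtain ⟨kx1, kx2⟩ := key x hx
      obtain ⟨ky1, ky2⟩ := key y hy
      refine Prod.ext hxy (Prod.ext ?_ ?_)
      · rw [kx2, ky2, hxy]
      · rw [kx1, ky1, hxy]
  have hD : (T.filter fun x => x.1.1.1 = x.2.1.1 ∧ x.1.1.1 = x.1.2.1).card ≤
      ((J ×ˢ P) ×ˢ (P ×ˢ P)).card := by
    refine card_le_card_of_injOn (fun x => (x.1.1, (x.1.2.2, x.2.1.2))) ?_ ?_
    · intro x hx
      obtain ⟨⟨⟨m1, p1⟩, ⟨-, p2⟩⟩, ⟨⟨-, p3⟩, -⟩⟩ := hmem x (mem_filter.1 hx).1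
      simp only [coe_product, Set.mem_prod, mem_coe]
      exact ⟨⟨m1, p1⟩, p2, p3⟩
    · intro x hx y hy hxy
      obtain ⟨hx, x1, x2⟩ := mem_filter.1 hx
      obtain ⟨hy, y1, y2⟩ := mem_filter.1 hy
      have hx' := hsum x hx
      have hy' := hsum y hy
      simp only [Prod.mk.injEq] at hxy
      obtain ⟨e1, e2, e3⟩ := hxy
      have e4 : x.1.1.1 = y.1.1.1 := by rw [e1]
      obtain ⟨⟨⟨m1, -⟩, -⟩, -⟩ := hmem x hx
      have x3 : x.2.2.1 = x.1.1.1 := by omega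
      have y3 : y.2.2.1 = y.1.1.1 := by omega
      have h5 : x.2.2.2 = y.2.2.2 := by
        ext i
        refine brD (hJ _ m1).1 (i ∈ x.1.1.2) (i ∈ x.1.2.2) (i ∈ x.2.1.2) _ _ ?_ ?_
        · have h6 := hbr x hx i
          rw [← x1, ← x2, x3] at h6
          exact h6
        · have h6 := hbr y hy i
          rw [← y1, ← y2, y3, ← e4, ← e1, ← e2, ← e3] at h6
          exact h6
      refine Prod.ext (Prod.ext e1 (Prod.ext ?_ e2)) (Prod.ext (Prod.ext ?_ e3) (Prod.ext ?_ h5))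
      · omega
      · omega
      · omega
  have hcover : T ⊆ ((T.filter fun x => x.1.1.1 ≠ x.2.1.1 ∧ x.1.1.1 ≠ x.2.2.1) ∪
      (T.filter fun x => x.1.1.1 = x.2.1.1 ∧ x.1.1.1 ≠ x.1.2.1)) ∪
      ((T.filter fun x => x.1.1.1 = x.2.2.1 ∧ x.1.1.1 ≠ x.1.2.1) ∪
      (T.filter fun x => x.1.1.1 = x.2.1.1 ∧ x.1.1.1 = x.1.2.1)) := by
    intro x hx
    have h1 := hsum x hx
    simp only [mem_union, mem_filter]
    by_cases h2 : x.1.1.1 = x.2.1.1
    · by_cases h3 : x.1.1.1 = x.1.2.1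
      · exact Or.inr (Or.inr ⟨hx, h2, h3⟩)
      · exact Or.inl (Or.inr ⟨hx, h2, h3⟩)
    · by_cases h3 : x.1.1.1 = x.2.2.1
      · refine Or.inr (Or.inl ⟨hx, h3, ?_⟩)
        intro h4
        apply h2
        omega
      · exact Or.inl (Or.inl ⟨hx, h2, h3⟩)
  have h1 := (card_le_card hcover).trans ((card_union_le _ _).trans
    (add_le_add (card_union_le _ _) (card_union_le _ _)))
  refine h1.trans ((add_le_add (add_le_add hA hB) (add_le_add hC hD)).trans ?_)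
  simp only [card_product, hPc]
  have h2 : J.card * J.card * (J.card * k.choose d) ≤ n * n * (n * k.choose d) := by gcongr
  have h3 : J.card * k.choose d * (J.card * k.choose d) ≤ n * k.choose d * (n * k.choose d) := by
    gcongr
  have h4 : J.card * k.choose d * (k.choose d * k.choose d) ≤
      n * k.choose d * (k.choose d * k.choose d) := by gcongr
  calc _ ≤ n * n * (n * k.choose d) + n * k.choose d * (n * k.choose d) +
      (n * k.choose d * (n * k.choose d) + n * k.choose d * (k.choose d * k.choose d)) := by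
        gcongr
    _ = _ := by ring

end Pool.Agent.P8H16.TR
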